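import Pool.Agent.Results.MP_3eb21e_gt.Pseudocompact
import Pool.Agent.Lib.MP_3eb21e_gt.Fan

/-! The statement of the earlier hand-in `Noncompact`, derived from `Pseudocompact`. -/

namespace Pool.Agent.Lib.MP_3eb21e_gt.Old.Noncompact

theorem result (E : Type) [TopologicalSpace E] [T4Space E] [PathConnectedSpace E] (n : ℕ)
    (hn : 2 ≤ n) (h : FPP (SymProd E n)) : CountablyCompactSpace E := by
  by_contra hE
  obtain ⟨g, hg, hu⟩ := exists_unbounded hE
  obtain ⟨C, hC⟩ := Pool.Agent.Results.MP_3eb21e_gt.Pseudocompact.result E n hn h g hg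
  exact hu ⟨C, by rintro _ ⟨x, rfl⟩; exact (le_abs_self _).trans (hC x)⟩

end Pool.Agent.Lib.MP_3eb21e_gt.Old.Noncompact
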